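import Pool.Agent.W8.LS.Defs

/-!
Project LS: statements of the subtasks.  Every `def` below of type `Prop` is one subtask: prove
`theorem xxx : XXX`.  All are independent of each other (earlier ones may be used as hypotheses
only where they are written as hypotheses).
-/

open scoped Topology ContDiff
open Complex (I)

namespace Pool.Agent.W8.LS

noncomputable section

/-! ### the group -/

def RelEquiv : Prop := Equivalence rel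

/-- key identity -/
def ActSite : Prop := ∀ e k l a n m r k' l' m' r' : ℤ, ∀ s c : ℝ, ∀ z w : ℂ,
  (e = 1 ∨ e = -1) →
  act e k l a n m r (site k' l' m' r' (s, c, z, w)) =
    site (e * (k' - 2 * k)) (e * (l' - 2 * l)) (e * (m' - 2 * m))
      (e * (r' - 2 * r) - e * (k' - 2 * k) * n)
      (s + k * l' + a, c + n, (e : ℂ) * z, (e : ℂ) * w)

def SingRel : Prop := ActSite → RelEquiv → ∀ P Q : V, rel P Q → (sing P ↔ sing Q)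

def PtEq : Prop := RelEquiv → (∀ P Q : V, rel P Q → (sing P ↔ sing Q)) →
  ∀ (P Q : V) (d d' : Option ℂ), pt P d = pt Q d' ↔ rel P Q ∧ (sing P → d = d')

def ActSmooth : Prop := ∀ e k l a n m r : ℤ, (e = 1 ∨ e = -1) →
  ContDiff ℝ ∞ (act e k l a n m r) ∧ ∀ x, SymAt (act e k l a n m r) x

def SiteSmooth : Prop := ∀ k l m r : ℤ,
  (ContDiff ℝ ∞ (site k l m r) ∧ ∀ x, SymAt (site k l m r) x) ∧
  (ContDiff ℝ ∞ (siteInv k l m r) ∧ ∀ x, SymAt (siteInv k l m r) x) ∧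
  (∀ x, siteInv k l m r (site k l m r x) = x) ∧ (∀ x, site k l m r (siteInv k l m r x) = x)

/-- sign change is in the group, shift of `z` by `i` is in the group -/
def Flip : Prop := ∀ k l m r : ℤ, ∀ s c : ℝ, ∀ z w : ℂ,
  rel (site k l m r (s, c, z, w)) (site k l m r (s, c, -z, -w)) ∧
  rel (site k l m r (s, c, z, w)) (site k l m r (s, c, z + I, w)) ∧
  rel (site k l m r (s, c, z, w)) (site k l m r (s + 1, c, z, w))

/-- inequivalent points have inequivalent neighbourhoods -/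
def RelClosed : Prop := ∀ P Q : V, ¬ rel P Q →
  ∃ O ∈ 𝓝 P, ∃ O' ∈ 𝓝 Q, ∀ x ∈ O, ∀ y ∈ O', ¬ rel x y

def SingClosed : Prop := IsClosed {P : V | sing P}

def LocInj : Prop := SingClosed → ∀ P : V, ¬ sing P → ∃ O : Set V, P ∈ O ∧ GoodOpen O

def NearSite : Prop := ActSite → ∀ k l m r : ℤ, ∀ s c s' c' : ℝ, ∀ z w z' w' : ℂ,
  ‖z‖ ≤ 1 / 8 → ‖w‖ ≤ 1 / 8 → ‖z'‖ ≤ 1 / 8 → ‖w'‖ ≤ 1 / 8 → |s - s'| < 1 / 2 →
  |c - c'| < 1 / 2 →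
  rel (site k l m r (s, c, z, w)) (site k l m r (s', c', z', w')) →
  s = s' ∧ c = c' ∧ ((z' = z ∧ w' = w) ∨ (z' = -z ∧ w' = -w))

def NearSing : Prop := ∀ k l m r : ℤ, ∀ s c : ℝ, ∀ z w : ℂ, ‖z‖ < 1 / 4 → ‖w‖ < 1 / 4 →
  sing (site k l m r (s, c, z, w)) → z = 0 ∧ w = 0

/-- two surfaces meeting modulo the group are identified by an exact identity -/
def SiteRel : Prop := ActSite → ∀ k l m r k' l' m' r' : ℤ, ∀ s c s' c' : ℝ,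
  rel (site k l m r (s, c, 0, 0)) (site k' l' m' r' (s', c', 0, 0)) →
  ∃ (e : ℤ) (ds dc : ℝ), (e = 1 ∨ e = -1) ∧ s' = s + ds ∧ c' = c + dc ∧
    ∀ (s₁ c₁ : ℝ) (z w : ℂ), rel (site k l m r (s₁, c₁, z, w))
      (site k' l' m' r' (s₁ + ds, c₁ + dc, (e : ℂ) * z, (e : ℂ) * w))

/-! ### calculus -/

def SqBasic : Prop := (∀ u : ℂ, sq u ^ 2 = 2 * u) ∧ sq 0 = 0 ∧ (∀ u, sq u = 0 → u = 0) ∧
  (∀ u, ‖sq u‖ ^ 2 = 2 * ‖u‖) ∧ ContinuousAt sq 0 ∧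
  (∀ z : ℂ, sq (z ^ 2 / 2) = z ∨ sq (z ^ 2 / 2) = -z)

/-- inverse function theorem for symplectic maps, with consequences for `LT` -/
def LTSymm : Prop := ∀ (f g : V → M) (x y : V), LT f g x y → LT g f y x

def LTTrans : Prop := ∀ (f g h : V → M) (x y z : V), LT f g x y → LT g h y z → LT f h x z

/-! ### transitions -/

/-- facts about the quotient that may be used -/
def Facts : Prop :=
  RelEquiv ∧ ActSite ∧ (∀ P Q : V, rel P Q → (sing P ↔ sing Q)) ∧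
  (∀ (P Q : V) (d d' : Option ℂ), pt P d = pt Q d' ↔ rel P Q ∧ (sing P → d = d')) ∧
  ActSmooth ∧ SiteSmooth ∧ Flip ∧ SingClosed ∧ NearSite ∧ NearSing ∧ SiteRel ∧ SqBasic ∧
  RelClosed ∧ LTSymm ∧ LTTrans

def LTRR : Prop := Facts → ∀ P Q : V, ¬ sing P → chR P = chR Q → LT chR chR P Q

def LTRA : Prop := Facts → ∀ (P Q : V) (k l m r : ℤ), ¬ sing P → Q.2.2.1 ≠ 0 →
  chR P = chA k l m r Q → LT chR (chA k l m r) P Q

def LTRB : Prop := Facts → ∀ (P Q : V) (k l m r : ℤ), ¬ sing P → Q.2.2.2 ≠ 0 →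
  chR P = chB k l m r Q → LT chR (chB k l m r) P Q

def LTAA : Prop := Facts → ∀ (s c s' c' : ℝ) (v v' : ℂ) (k l m r k' l' m' r' : ℤ),
  chA k l m r (s, c, 0, v) = chA k' l' m' r' (s', c', 0, v') →
  LT (chA k l m r) (chA k' l' m' r') (s, c, 0, v) (s', c', 0, v')

def LTBB : Prop := Facts → ∀ (s c s' c' : ℝ) (v v' : ℂ) (k l m r k' l' m' r' : ℤ),
  chB k l m r (s, c, v, 0) = chB k' l' m' r' (s', c', v', 0) →
  LT (chB k l m r) (chB k' l' m' r') (s, c, v, 0) (s', c', v', 0)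

def LTAB : Prop := Facts → ∀ (s c s' c' : ℝ) (v v' : ℂ) (k l m r k' l' m' r' : ℤ),
  chA k l m r (s, c, 0, v) = chB k' l' m' r' (s', c', v', 0) →
  LT (chA k l m r) (chB k' l' m' r') (s, c, 0, v) (s', c', v', 0)

/-- which points of the charts are exceptional -/
def SingAB : Prop := Facts → ∀ (s c : ℝ) (k l m r : ℤ) (Q : V),
  (Q ∈ UA s c → (sing (site k l m r (Q.1, Q.2.1, sq Q.2.2.1, Q.2.2.2 * sq Q.2.2.1)) ↔
    Q.2.2.1 = 0)) ∧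
  (Q ∈ UB s c → (sing (site k l m r (Q.1, Q.2.1, Q.2.2.1 * sq Q.2.2.2, sq Q.2.2.2)) ↔
    Q.2.2.2 = 0))

/-- all transitions -/
def AllTrans : Prop := Facts → LTRR → LTRA → LTRB → LTAA → LTBB → LTAB → SingAB → LocInj →
  ∀ (i j : Idx) (x y : V), x ∈ dom i → y ∈ dom j → ch i x = ch j y → LT (ch i) (ch j) x y

def InjA : Prop := Facts → ∀ (s c : ℝ) (k l m r : ℤ), Set.InjOn (chA k l m r) (UA s c)

def InjB : Prop := Facts → ∀ (s c : ℝ) (k l m r : ℤ), Set.InjOn (chB k l m r) (UB s c)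

def DomOpen : Prop := ∀ i : Idx, IsOpen (dom i)

def Cover : Prop := Facts → LocInj → ∀ x : M, ∃ (i : Idx) (Q : V), Q ∈ dom i ∧ ch i Q = x

/-! ### topology (general gluing) -/

/-- general gluing: the parametrisations are homeomorphisms onto open sets -/
def GlueHomeo : Prop := ∀ (X Y J : Type) [TopologicalSpace Y] (U : J → Set Y) (f : J → Y → X),
  (∀ i, IsOpen (U i)) → (∀ i, Set.InjOn (f i) (U i)) →
  (∀ i j x y, x ∈ U i → y ∈ U j → f i x = f j y →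
    ∃ τ : Y → Y, τ x = y ∧ ContinuousAt τ x ∧ ∀ᶠ z in 𝓝 x, f j (τ z) = f i z) →
  Nonempty Y →
  letI : TopologicalSpace X := glueTop U f
  ∀ i, ∃ e : OpenPartialHomeomorph X Y, e.source = f i '' U i ∧ e.target = U i ∧
    (∀ x ∈ U i, e (f i x) = x) ∧ (∀ x ∈ U i, e.symm x = f i x)

/-- criterion for the Hausdorff property -/
def GlueT2 : Prop := ∀ (X Y J : Type) [TopologicalSpace Y] (U : J → Set Y) (f : J → Y → X),
  (∀ i, IsOpen (U i)) → (∀ i, Set.InjOn (f i) (U i)) →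
  (∀ i j x y, x ∈ U i → y ∈ U j → f i x = f j y →
    ∃ τ : Y → Y, τ x = y ∧ ContinuousAt τ x ∧ ∀ᶠ z in 𝓝 x, f j (τ z) = f i z) →
  (∀ p q : X, p ≠ q → ∃ i j x y, x ∈ U i ∧ y ∈ U j ∧ f i x = p ∧ f j y = q ∧
    ∃ O ∈ 𝓝 x, ∃ O' ∈ 𝓝 y, ∀ z ∈ O, ∀ z' ∈ O', z ∈ U i → z' ∈ U j → f i z ≠ f j z') →
  @T2Space X (glueTop U f)

/-- separation of points -/
def Separate : Prop := Facts → LocInj → InjA → InjB → SingAB →
  ∀ p q : M, p ≠ q → ∃ (i j : Idx) (x y : V), x ∈ dom i ∧ y ∈ dom j ∧ ch i x = p ∧ ch j y = q ∧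
    ∃ O ∈ 𝓝 x, ∃ O' ∈ 𝓝 y, ∀ z ∈ O, ∀ z' ∈ O', z ∈ dom i → z' ∈ dom j → ch i z ≠ ch j z'

/-- continuity of the parametrisations on the big domains -/
def ChCont : Prop := Facts → LocInj →
  ContinuousOn chR {P | ¬ sing P} ∧
  (∀ k l m r : ℤ, ContinuousOn (chA k l m r)
    {Q | ‖Q.2.2.1‖ * (1 + ‖Q.2.2.2‖ ^ 2) < 1 / 200}) ∧
  (∀ k l m r : ℤ, ContinuousOn (chB k l m r)
    {Q | ‖Q.2.2.2‖ * (1 + ‖Q.2.2.1‖ ^ 2) < 1 / 200})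

/-- compact covering -/
def CompactCover : Prop := Facts → ∃ K : Set V, IsCompact K ∧ (∀ P ∈ K, ¬ sing P) ∧
  ∃ N : ℕ, ∀ x : M, (∃ P ∈ K, chR P = x) ∨
    ∃ k l m r : ℤ, (|k| ≤ N ∧ |l| ≤ N ∧ |m| ≤ N ∧ |r| ≤ N) ∧ ∃ Q : V,
      |Q.1| ≤ N ∧ |Q.2.1| ≤ N ∧
      ((‖Q.2.2.2‖ ≤ 1 ∧ ‖Q.2.2.1‖ ≤ 1 / 500 ∧ chA k l m r Q = x) ∨
       (‖Q.2.2.1‖ ≤ 1 ∧ ‖Q.2.2.2‖ ≤ 1 / 500 ∧ chB k l m r Q = x))

def CompactM : Prop := ChCont → CompactCover → Facts → LocInj → CompactSpace M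

/-! ### the spheres -/

/-- the function comparing the round disc with the ellipses of `cosh` -/
def GProp (G : ℂ → ℂ) : Prop :=
  ContDiff ℝ ∞ G ∧ Function.Injective G ∧ (∀ x a, fderiv ℝ G x a = 0 → a = 0) ∧
  (∀ ζ : ℂ, 4 ≤ ‖ζ‖ → G ζ = (ζ + ζ⁻¹) / 2) ∧
  (∀ ζ z : ℂ, ‖ζ‖ ≤ kap → Complex.cosh (2 * (Real.pi : ℂ) * z) = G ζ → |z.re| ≤ 1 / 4) ∧
  (∀ ζ z : ℂ, ‖ζ‖ < kap → Complex.cosh (2 * (Real.pi : ℂ) * z) = G ζ → |z.re| < 1 / 4)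

def GFun : Prop := ∃ G : ℂ → ℂ, GProp G

def HfBasic : Prop := ContDiff ℝ ∞ hf ∧ (∀ x, hf (-x) = -hf x) ∧
  (∀ x, |x| ≤ 1 / 8 → hf x = 0) ∧ (∀ x, 0 ≤ x → x ≤ 1 / 2 → hf (1 / 2 - x) = 1 / 2 - hf x)

/-- solutions of cosh (2 π z) = w -/
def CoshBasic : Prop :=
  (∀ w : ℂ, ∃ z : ℂ, Complex.cosh (2 * (Real.pi : ℂ) * z) = w) ∧
  (∀ z z' : ℂ, Complex.cosh (2 * (Real.pi : ℂ) * z) = Complex.cosh (2 * (Real.pi : ℂ) * z') →
    ∃ n : ℤ, z' = z + n * I ∨ z' = -z + n * I)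

/-- local inverse of cosh at regular values -/
def CoshInv : Prop := ∀ z₀ : ℂ, Complex.sinh (2 * (Real.pi : ℂ) * z₀) ≠ 0 →
  ∃ Z : ℂ → ℂ, Z (Complex.cosh (2 * (Real.pi : ℂ) * z₀)) = z₀ ∧
    ∀ᶠ w in 𝓝 (Complex.cosh (2 * (Real.pi : ℂ) * z₀)), ContDiffAt ℂ ∞ Z w ∧
      Complex.cosh (2 * (Real.pi : ℂ) * Z w) = w ∧ deriv Z w ≠ 0

/-- at the branch point: `u = z^2/2` is a smooth function of `cosh (2 π z)` near `1` -/
def CoshBranch : Prop := ∃ U : ℂ → ℂ, (∀ᶠ w in 𝓝 (1 : ℂ), ContDiffAt ℂ ∞ U w) ∧ U 1 = 0 ∧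
  deriv U 1 ≠ 0 ∧
  ∀ᶠ w in 𝓝 (1 : ℂ), ∃ z : ℂ, Complex.cosh (2 * (Real.pi : ℂ) * z) = w ∧ z ^ 2 / 2 = U w ∧
    ‖z‖ < 1 / 16

/-- `lam` may be computed with any solution -/
def LamEq : Prop := Facts → HfBasic → CoshBasic →
  ∀ (k l m r : ℤ) (N : ℕ) (s : ℝ) (z w : ℂ), Complex.cosh (2 * (Real.pi : ℂ) * z) = w →
    lam k l m r N s w = pt (site k l m r (sheet N s z)) (some 0)

def LamFacts : Prop := Facts ∧ HfBasic ∧ CoshBasic ∧ LocInj ∧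
  (∀ (k l m r : ℤ) (N : ℕ) (s : ℝ) (z w : ℂ), Complex.cosh (2 * (Real.pi : ℂ) * z) = w →
    lam k l m r N s w = pt (site k l m r (sheet N s z)) (some 0))

/-- `lam` is a Lagrangian immersion at regular points -/
def LamReg : Prop := LamFacts → CoshInv → ∀ (k l m r : ℤ) (N : ℕ) (s : ℝ) (z : ℂ),
  |z.re| < 1 / 2 → Complex.sinh (2 * (Real.pi : ℂ) * z) ≠ 0 →
  LagPt (fun p : ℝ × ℂ => lam k l m r N p.1 p.2) (s, Complex.cosh (2 * (Real.pi : ℂ) * z)) {0}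

/-- `lam` is a Lagrangian immersion at the branch points -/
def LamBranch : Prop := LamFacts → CoshBranch → ∀ (k l m r : ℤ) (N : ℕ) (s : ℝ) (w : ℂ),
  (w = 1 ∨ w = -1) → LagPt (fun p : ℝ × ℂ => lam k l m r N p.1 p.2) (s, w) {0}

/-- all points with small real part -/
def LamImm : Prop := LamFacts → CoshInv → CoshBranch → LamReg → LamBranch →
  ∀ (k l m r : ℤ) (N : ℕ) (s : ℝ) (z : ℂ), |z.re| < 1 / 2 →
  LagPt (fun p : ℝ × ℂ => lam k l m r N p.1 p.2) (s, Complex.cosh (2 * (Real.pi : ℂ) * z)) {0}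

/-- injectivity inside one cap -/
def LamInj : Prop := LamFacts → ∀ (k l m r : ℤ) (N : ℕ) (s s' : ℝ) (z z' : ℂ),
  |z.re| < 1 / 2 → |z'.re| < 1 / 2 →
  lam k l m r N s (Complex.cosh (2 * (Real.pi : ℂ) * z)) =
    lam k l m r N s' (Complex.cosh (2 * (Real.pi : ℂ) * z')) →
  (∃ n : ℤ, s' = s + n) ∧
    Complex.cosh (2 * (Real.pi : ℂ) * z) = Complex.cosh (2 * (Real.pi : ℂ) * z')

/-- the two caps meet only in the neck -/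
def LamSep : Prop := LamFacts → ∀ (N : ℕ) (s s' : ℝ) (z z' : ℂ),
  |z.re| ≤ 1 / 4 → |z'.re| < 1 / 4 →
  lam 0 0 0 0 N s (Complex.cosh (2 * (Real.pi : ℂ) * z)) ≠
    lam (-1) 0 (-(N : ℤ)) 0 N s' (Complex.cosh (2 * (Real.pi : ℂ) * z'))

/-- different spheres lie in different levels of `c` modulo `1` -/
def LamLevel : Prop := LamFacts → ∀ (k l m r k' l' m' r' : ℤ) (N N' : ℕ) (s s' : ℝ) (w w' : ℂ),
  lam k l m r N s w = lam k' l' m' r' N' s' w' → N = N'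

def LamShift : Prop := LamFacts → ∀ (k l m r : ℤ) (N : ℕ) (s : ℝ) (w : ℂ) (n : ℤ),
  lam k l m r N (s + n) w = lam k l m r N s w

/-- agreement in the neck -/
def Neck : Prop := LamFacts → ∀ G : ℂ → ℂ, GProp G → ∀ (N : ℕ) (a b : ℂ), a ≠ 0 → b ≠ 0 →
  4 ≤ kap * ‖b / a‖ → 4 ≤ kap * ‖a / b‖ →
  lam 0 0 0 0 N (Complex.arg a / (2 * Real.pi)) (G (kap * (b / a))) =
    lam (-1) 0 (-(N : ℤ)) 0 N (Complex.arg b / (2 * Real.pi)) (G (kap * (a / b)))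

def KapGt : Prop := 4 < kap

/-- the sphere map is a Lagrangian immersion, its kernel being the radial direction -/
def PhiImm : Prop := LamFacts → KapGt → LamShift → Neck → ∀ G : ℂ → ℂ, GProp G →
  (∀ (k l m r : ℤ) (N : ℕ) (s : ℝ) (z : ℂ), |z.re| < 1 / 2 →
    LagPt (fun p : ℝ × ℂ => lam k l m r N p.1 p.2)
      (s, Complex.cosh (2 * (Real.pi : ℂ) * z)) {0}) →
  ∀ (N : ℕ) (p : ℂ × ℂ), p ≠ 0 → LagPt (phi G N) p {q | ∃ t : ℝ, q = t • p}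

def PhiRay : Prop := LamFacts → ∀ G : ℂ → ℂ, ∀ (N : ℕ) (p : ℂ × ℂ) (t : ℝ), 0 < t →
  phi G N (t • p) = phi G N p

def PhiInj : Prop := LamFacts → LamInj → LamSep → LamShift → Neck → KapGt →
  ∀ G : ℂ → ℂ, GProp G → ∀ (N : ℕ) (p q : ℂ × ℂ), ‖p.1‖ ^ 2 + ‖p.2‖ ^ 2 = 1 →
  ‖q.1‖ ^ 2 + ‖q.2‖ ^ 2 = 1 → phi G N p = phi G N q → p = q

end

end Pool.Agent.W8.LS

namespace Pool.Agent.W8.LS

noncomputable section

/-! ### the comparison map of discs, split -/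

/-- radial functions -/
def RadProp (α β : ℝ → ℝ) : Prop :=
  ContDiff ℝ ∞ α ∧ ContDiff ℝ ∞ β ∧ (∀ s, 0 ≤ s → 0 < α s) ∧ (∀ s, 0 ≤ s → 0 < β s) ∧
  (∀ s, 0 ≤ s → 0 < deriv (fun s => s * α s ^ 2) s) ∧
  (∀ s, 0 ≤ s → 0 < deriv (fun s => s * β s ^ 2) s) ∧
  (∀ s, 16 ≤ s → s * α s ^ 2 = (s + 2 + s⁻¹) / 4) ∧
  (∀ s, 16 ≤ s → s * β s ^ 2 = (s - 2 + s⁻¹) / 4)

def Gab (α β : ℝ → ℝ) (ζ : ℂ) : ℂ :=
  ((α (‖ζ‖ ^ 2) * ζ.re : ℝ) : ℂ) + ((β (‖ζ‖ ^ 2) * ζ.im : ℝ) : ℂ) * I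

def GRad : Prop := ∃ α β : ℝ → ℝ, RadProp α β

def GabInj : Prop := ∀ α β : ℝ → ℝ, RadProp α β → Function.Injective (Gab α β)

def GabImm : Prop := ∀ α β : ℝ → ℝ, RadProp α β → ContDiff ℝ ∞ (Gab α β) ∧
  ∀ x a, fderiv ℝ (Gab α β) x a = 0 → a = 0

def GabJou : Prop := ∀ α β : ℝ → ℝ, RadProp α β → ∀ ζ : ℂ, 4 ≤ ‖ζ‖ →
  Gab α β ζ = (ζ + ζ⁻¹) / 2

def GabRe : Prop := KapGt → ∀ α β : ℝ → ℝ, RadProp α β →
  (∀ ζ z : ℂ, ‖ζ‖ ≤ kap → Complex.cosh (2 * (Real.pi : ℂ) * z) = Gab α β ζ → |z.re| ≤ 1 / 4) ∧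
  (∀ ζ z : ℂ, ‖ζ‖ < kap → Complex.cosh (2 * (Real.pi : ℂ) * z) = Gab α β ζ → |z.re| < 1 / 4)

end

end Pool.Agent.W8.LS
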