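import Pool.Agent.W8.LS.Stm

/-!
Project LS (helper8, MP_89d91e_gt), subtask LS-Separate: separation of points.
-/

open scoped Topology ContDiff
open Complex (I)
open Pool.Agent.W8.LS hiding sq

namespace Pool.Agent.W8.LSSep

noncomputable section


def mA (k l m r : ℤ) (Q : V) : V := site k l m r (Q.1, Q.2.1, Pool.Agent.W8.LS.sq Q.2.2.1, Q.2.2.2 * Pool.Agent.W8.LS.sq Q.2.2.1)

def mB (k l m r : ℤ) (Q : V) : V := site k l m r (Q.1, Q.2.1, Q.2.2.1 * Pool.Agent.W8.LS.sq Q.2.2.2, Pool.Agent.W8.LS.sq Q.2.2.2)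

lemma mA_cont (hS : SiteSmooth) (hq : SqBasic) (k l m r : ℤ) (s c : ℝ) (v : ℂ) :
    ContinuousAt (mA k l m r) (s, c, 0, v) := by
  have h1 : Continuous (site k l m r) := (hS k l m r).1.1.continuous
  have hc : ContinuousAt Pool.Agent.W8.LS.sq 0 := hq.2.2.2.2.1
  have hsq : ContinuousAt (fun Q : V => Pool.Agent.W8.LS.sq Q.2.2.1) (s, c, 0, v) := by
    have : ContinuousAt (fun Q : V => Q.2.2.1) (s, c, 0, v) := by fun_prop
    exact ContinuousAt.comp (f := fun Q : V => Q.2.2.1) (g := Pool.Agent.W8.LS.sq) (x := (s, c, 0, v)) hc this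
  have h2 : ContinuousAt (fun Q : V => (Q.1, Q.2.1, Pool.Agent.W8.LS.sq Q.2.2.1, Q.2.2.2 * Pool.Agent.W8.LS.sq Q.2.2.1))
      (s, c, 0, v) := by
    have e1 : ContinuousAt (fun Q : V => Q.1) (s, c, 0, v) := by fun_prop
    have e2 : ContinuousAt (fun Q : V => Q.2.1) (s, c, 0, v) := by fun_prop
    have e3 : ContinuousAt (fun Q : V => Q.2.2.2) (s, c, 0, v) := by fun_prop
    exact e1.prodMk (e2.prodMk (hsq.prodMk (e3.mul hsq)))
  exact ContinuousAt.comp (g := site k l m r) h1.continuousAt h2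

lemma mB_cont (hS : SiteSmooth) (hq : SqBasic) (k l m r : ℤ) (s c : ℝ) (v : ℂ) :
    ContinuousAt (mB k l m r) (s, c, v, 0) := by
  have h1 : Continuous (site k l m r) := (hS k l m r).1.1.continuous
  have hc : ContinuousAt Pool.Agent.W8.LS.sq 0 := hq.2.2.2.2.1
  have hsq : ContinuousAt (fun Q : V => Pool.Agent.W8.LS.sq Q.2.2.2) (s, c, v, 0) := by
    have : ContinuousAt (fun Q : V => Q.2.2.2) (s, c, v, 0) := by fun_prop
    exact ContinuousAt.comp (f := fun Q : V => Q.2.2.2) (g := Pool.Agent.W8.LS.sq) (x := (s, c, v, 0)) hc this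
  have h2 : ContinuousAt (fun Q : V => (Q.1, Q.2.1, Q.2.2.1 * Pool.Agent.W8.LS.sq Q.2.2.2, Pool.Agent.W8.LS.sq Q.2.2.2))
      (s, c, v, 0) := by
    have e1 : ContinuousAt (fun Q : V => Q.1) (s, c, v, 0) := by fun_prop
    have e2 : ContinuousAt (fun Q : V => Q.2.1) (s, c, v, 0) := by fun_prop
    have e3 : ContinuousAt (fun Q : V => Q.2.2.1) (s, c, v, 0) := by fun_prop
    exact e1.prodMk (e2.prodMk ((e3.mul hsq).prodMk hsq))
  exact ContinuousAt.comp (g := site k l m r) h1.continuousAt h2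

/-- the conclusion -/
def Sep (p q : M) : Prop :=
  ∃ (i j : Idx) (x y : V), x ∈ dom i ∧ y ∈ dom j ∧ ch i x = p ∧ ch j y = q ∧
    ∃ O ∈ 𝓝 x, ∃ O' ∈ 𝓝 y, ∀ z ∈ O, ∀ z' ∈ O', z ∈ dom i → z' ∈ dom j → ch i z ≠ ch j z'

lemma Sep.symm {p q : M} (h : Sep p q) : Sep q p := by
  obtain ⟨i, j, x, y, hx, hy, hp, hq, O, hO, O', hO', h⟩ := h
  exact ⟨j, i, y, x, hy, hx, hq, hp, O', hO', O, hO,
    fun z hz z' hz' hzd hzd' he => h z' hz' z hz hzd' hzd he.symm⟩

lemma mem_UA (s c : ℝ) (v : ℂ) : ((s, c, 0, v) : V) ∈ UA s c := by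
  simp [UA]

lemma mem_UB (s c : ℝ) (v : ℂ) : ((s, c, v, 0) : V) ∈ UB s c := by
  simp [UB]

lemma chA_zero (hq : SqBasic) (k l m r : ℤ) (s c : ℝ) (v : ℂ) :
    chA k l m r (s, c, 0, v) = pt (site k l m r (s, c, 0, 0)) (some v) := by
  simp [chA, hq.2.1]

lemma chB_zero (hq : SqBasic) (k l m r : ℤ) (s c : ℝ) :
    chB k l m r (s, c, 0, 0) = pt (site k l m r (s, c, 0, 0)) none := by
  simp [chB, hq.2.1]

lemma chart_at (hR : RelEquiv)
    (hP : ∀ (P Q : V) (d d' : Option ℂ), pt P d = pt Q d' ↔ rel P Q ∧ (sing P → d = d'))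
    (hS : SiteSmooth) (hSC : SingClosed) (hq : SqBasic) (hL : LocInj) (P : V) (d : Option ℂ) :
    ∃ (i : Idx) (x : V) (ρ : V → V) (δ : V → Option ℂ), x ∈ dom i ∧ ch i x = pt P d ∧
      ContinuousAt ρ x ∧ ρ x = P ∧ ∀ z, ch i z = pt (ρ z) (δ z) := by
  by_cases hs : sing P
  · obtain ⟨k, l, m, r, s, c, rfl⟩ := hs
    rcases d with _ | v
    · refine ⟨Idx.B k l m r s c, (s, c, 0, 0), mB k l m r,
        fun Q => if Q.2.2.1 = 0 then none else some (Q.2.2.1)⁻¹, mem_UB s c 0,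
        chB_zero hq k l m r s c, mB_cont hS hq k l m r s c 0, ?_, fun z => rfl⟩
      simp [mB, hq.2.1]
    · refine ⟨Idx.A k l m r s c, (s, c, 0, v), mA k l m r, fun Q => some Q.2.2.2, mem_UA s c v,
        chA_zero hq k l m r s c v, mA_cont hS hq k l m r s c v, ?_, fun z => rfl⟩
      simp [mA, hq.2.1]
  · obtain ⟨O, hPO, hO⟩ := hL hSC P hs
    refine ⟨Idx.reg O hO, P, id, fun _ => some 0, hPO, ?_, continuousAt_id, rfl, fun z => rfl⟩
    show pt P (some 0) = pt P d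
    exact (hP P P _ _).2 ⟨hR.refl P, fun h => absurd h hs⟩

lemma norm_le_eighth {a : ℂ} {t : ℝ} (h : ‖a‖ ^ 2 = 2 * t) (ht : t < 1 / 200) : ‖a‖ ≤ 1 / 8 := by
  have h0 := norm_nonneg a
  nlinarith [h0, h, ht]

lemma sep_AB (hF : Facts) (k l m r : ℤ) (s c : ℝ) (v : ℂ) :
    Sep (pt (site k l m r (s, c, 0, 0)) (some v)) (pt (site k l m r (s, c, 0, 0)) none) := by
  obtain ⟨hR, hAS, hSR, hP, hAct, hS, hFl, hSC, hNS, hNSi, hSRel, hq, hRC, -, -⟩ := hF
  have hK : 0 < ‖v‖ + 1 := by positivity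
  refine ⟨Idx.A k l m r s c, Idx.B k l m r s c, (s, c, 0, v), (s, c, 0, 0), mem_UA s c v,
    mem_UB s c 0, chA_zero hq k l m r s c v, chB_zero hq k l m r s c,
    {Z : V | ‖Z.2.2.2‖ < ‖v‖ + 1}, ?_, {Z : V | ‖Z.2.2.1‖ < 1 / (‖v‖ + 1)}, ?_, ?_⟩
  · have hc : Continuous (fun Z : V => ‖Z.2.2.2‖) := by fun_prop
    refine (isOpen_lt hc continuous_const).mem_nhds ?_
    simp
  · have hc : Continuous (fun Z : V => ‖Z.2.2.1‖) := by fun_prop
    refine (isOpen_lt hc continuous_const).mem_nhds ?_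
    simp [hK]
  · rintro ⟨s₁, c₁, u, w⟩ hz ⟨s₂, c₂, w', u'⟩ hz' hzd hzd' he
    simp only [Set.mem_ofPred_eq] at hz hz'
    obtain ⟨a1, a2, a3⟩ := hzd
    obtain ⟨b1, b2, b3⟩ := hzd'
    simp only at a1 a2 a3 b1 b2 b3
    have hkey : w' * w ≠ 1 := by
      intro h
      have h1 : ‖w'‖ * ‖w‖ = 1 := by rw [← norm_mul, h, norm_one]
      have h2 : ‖w'‖ * ‖w‖ < 1 := by
        have e1 : ‖w'‖ * (‖v‖ + 1) < 1 := by
          rwa [lt_div_iff₀ hK] at hz'
        have e2 : ‖w'‖ * ‖w‖ ≤ ‖w'‖ * (‖v‖ + 1) :=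
          mul_le_mul_of_nonneg_left hz.le (norm_nonneg _)
        linarith
      linarith
    have he' : pt (site k l m r (s₁, c₁, Pool.Agent.W8.LS.sq u, w * Pool.Agent.W8.LS.sq u)) (some w) =
        pt (site k l m r (s₂, c₂, w' * Pool.Agent.W8.LS.sq u', Pool.Agent.W8.LS.sq u')) (if w' = 0 then none else some w'⁻¹) := he
    rw [hP] at he'
    obtain ⟨hrel, hdir⟩ := he'
    have nu : ‖u‖ < 1 / 200 := by
      have := norm_nonneg u
      nlinarith [sq_nonneg ‖w‖, mul_nonneg this (sq_nonneg ‖w‖)]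
    have nuw : ‖w‖ ^ 2 * ‖u‖ < 1 / 200 := by
      have := norm_nonneg u
      nlinarith
    have nu' : ‖u'‖ < 1 / 200 := by
      have := norm_nonneg u'
      nlinarith [sq_nonneg ‖w'‖, mul_nonneg this (sq_nonneg ‖w'‖)]
    have nuw' : ‖w'‖ ^ 2 * ‖u'‖ < 1 / 200 := by
      have := norm_nonneg u'
      nlinarith
    have hns := hq.2.2.2.1
    have q1 : ‖Pool.Agent.W8.LS.sq u‖ ≤ 1 / 8 := norm_le_eighth (hns u) nu
    have q2 : ‖w * Pool.Agent.W8.LS.sq u‖ ≤ 1 / 8 := by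
      refine norm_le_eighth (t := ‖w‖ ^ 2 * ‖u‖) ?_ nuw
      rw [norm_mul, mul_pow, hns u]; ring
    have q3 : ‖Pool.Agent.W8.LS.sq u'‖ ≤ 1 / 8 := norm_le_eighth (hns u') nu'
    have q4 : ‖w' * Pool.Agent.W8.LS.sq u'‖ ≤ 1 / 8 := by
      refine norm_le_eighth (t := ‖w'‖ ^ 2 * ‖u'‖) ?_ nuw'
      rw [norm_mul, mul_pow, hns u']; ring
    have hs12 : |s₁ - s₂| < 1 / 2 := by
      rw [abs_lt] at *; constructor <;> linarith [a1.1, a1.2, b1.1, b1.2]
    have hc12 : |c₁ - c₂| < 1 / 2 := by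
      rw [abs_lt] at *; constructor <;> linarith [a2.1, a2.2, b2.1, b2.2]
    obtain ⟨-, -, hor⟩ := hNS hAS k l m r s₁ c₁ s₂ c₂ (Pool.Agent.W8.LS.sq u) (w * Pool.Agent.W8.LS.sq u) (w' * Pool.Agent.W8.LS.sq u') (Pool.Agent.W8.LS.sq u')
      q1 q2 q4 q3 hs12 hc12 hrel
    by_cases hu : u = 0
    · subst hu
      have hsing : sing (site k l m r (s₁, c₁, Pool.Agent.W8.LS.sq 0, w * Pool.Agent.W8.LS.sq 0)) :=
        ⟨k, l, m, r, s₁, c₁, by simp [hq.2.1]⟩
      have hd := hdir hsing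
      by_cases hw' : w' = 0
      · simp [hw'] at hd
      · rw [if_neg hw'] at hd
        have : w = w'⁻¹ := Option.some_injective _ hd
        apply hkey
        rw [this]
        exact mul_inv_cancel₀ hw'
    · have hsu : Pool.Agent.W8.LS.sq u ≠ 0 := fun h => hu (hq.2.2.1 u h)
      rcases hor with ⟨h1, h2⟩ | ⟨h1, h2⟩
      · rw [h2] at h1
        apply hkey
        have : (w' * w) * Pool.Agent.W8.LS.sq u = 1 * Pool.Agent.W8.LS.sq u := by linear_combination h1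
        exact mul_right_cancel₀ hsu this
      · rw [h2] at h1
        apply hkey
        have : (w' * w) * Pool.Agent.W8.LS.sq u = 1 * Pool.Agent.W8.LS.sq u := by linear_combination -h1
        exact mul_right_cancel₀ hsu this

theorem Separate_proof : Separate := by
  intro hF hL hA hB hAB p q hpq
  change Sep p q
  have hF' := hF
  obtain ⟨hR, hAS, hSR, hP, hAct, hS, hFl, hSC, hNS, hNSi, hSRel, hq, hRC, -, -⟩ := hF'
  obtain ⟨⟨P, d⟩, rfl⟩ := Quot.exists_rep p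
  obtain ⟨⟨Q, d'⟩, rfl⟩ := Quot.exists_rep q
  change Sep (pt P d) (pt Q d')
  change pt P d ≠ pt Q d' at hpq
  by_cases hrel : rel P Q
  · have hne : sing P ∧ d ≠ d' := by
      by_contra hcon
      apply hpq
      rw [hP]
      refine ⟨hrel, fun h => ?_⟩
      by_contra hd
      exact hcon ⟨h, hd⟩
    obtain ⟨hsP, hd⟩ := hne
    have hQ : pt Q d' = pt P d' := ((hP P Q d' d').2 ⟨hrel, fun _ => rfl⟩).symm
    rw [hQ]
    obtain ⟨k, l, m, r, s, c, rfl⟩ := hsP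
    rcases d with _ | v
    · rcases d' with _ | v'
      · exact absurd rfl hd
      · exact (sep_AB hF k l m r s c v').symm
    · rcases d' with _ | v'
      · exact sep_AB hF k l m r s c v
      · have hvv : ((s, c, 0, v) : V) ≠ (s, c, 0, v') := by
          intro h
          apply hd
          simp only [Prod.mk.injEq, true_and] at h
          rw [h]
        obtain ⟨O, O', hO, hO', hx, hy, hdis⟩ := t2_separation hvv
        refine ⟨Idx.A k l m r s c, Idx.A k l m r s c, (s, c, 0, v), (s, c, 0, v'),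
          mem_UA s c v, mem_UA s c v', chA_zero hq k l m r s c v, chA_zero hq k l m r s c v',
          O, hO.mem_nhds hx, O', hO'.mem_nhds hy, ?_⟩
        intro z hz z' hz' hzd hzd' he
        have : z = z' := hA hF s c k l m r hzd hzd' he
        subst this
        exact Set.disjoint_left.1 hdis hz hz'
  · obtain ⟨O, hO, O', hO', hOO⟩ := hRC P Q hrel
    obtain ⟨i, x, ρ, δ, hx, hix, hρ, hρx, hρi⟩ := chart_at hR hP hS hSC hq hL P d
    obtain ⟨j, y, σ, ε, hy, hjy, hσ, hσy, hσj⟩ := chart_at hR hP hS hSC hq hL Q d'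
    refine ⟨i, j, x, y, hx, hy, hix, hjy, ρ ⁻¹' O, ?_, σ ⁻¹' O', ?_, ?_⟩
    · apply hρ.preimage_mem_nhds; rwa [hρx]
    · apply hσ.preimage_mem_nhds; rwa [hσy]
    · intro z hz z' hz' _ _ he
      rw [hρi, hσj, hP] at he
      exact hOO _ hz _ hz' he.1

end

end Pool.Agent.W8.LSSep
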