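import Pool.Agent.W8.LS.Fin

/-!
Project LS: the final statement from the parts.
-/

open scoped Topology ContDiff
open Complex (I)

namespace Pool.Agent.W8.LS

noncomputable section

structure Parts (G : ℂ → ℂ) : Prop where
  dopen : ∀ i, IsOpen (dom i)
  cover : ∀ x : M, ∃ (i : Idx) (Q : V), Q ∈ dom i ∧ ch i Q = x
  trans : ∀ (i j : Idx) (x y : V), x ∈ dom i → y ∈ dom j → ch i x = ch j y →
    LT (ch i) (ch j) x y
  homeo : ∀ i, ∃ e : OpenPartialHomeomorph M V, e.source = ch i '' dom i ∧ e.target = dom i ∧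
    (∀ x ∈ dom i, e (ch i x) = x) ∧ (∀ x ∈ dom i, e.symm x = ch i x)
  t2 : T2Space M
  comp : CompactSpace M
  imm : ∀ (N : ℕ) (p : ℂ × ℂ), p ≠ 0 → LagPt (phi G N) p {q | ∃ t : ℝ, q = t • p}
  ray : ∀ (N : ℕ) (p : ℂ × ℂ) (t : ℝ), 0 < t → phi G N (t • p) = phi G N p
  inj : ∀ (N : ℕ) (p q : ℂ × ℂ), ‖p.1‖ ^ 2 + ‖p.2‖ ^ 2 = 1 → ‖q.1‖ ^ 2 + ‖q.2‖ ^ 2 = 1 →
    phi G N p = phi G N q → p = q
  level : ∀ (N N' : ℕ) (p q : ℂ × ℂ), phi G N p = phi G N' q → N = N'

lemma om_nondeg {a : V} (h : ∀ b, om a b = 0) : a = 0 := by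
  obtain ⟨t, c, z, w⟩ := a
  have h1 := h (0, 1, 0, 0)
  have h2 := h (1, 0, 0, 0)
  have h3 := h (0, 0, 0, 1)
  have h4 := h (0, 0, 0, I)
  have h5 := h (0, 0, 1, 0)
  have h6 := h (0, 0, I, 0)
  simp [om] at h1 h2 h3 h4 h5 h6
  have hz : z = 0 := Complex.ext h3 h4
  have hw : w = 0 := Complex.ext h5 h6
  simp [h1, h2, hz, hw]

lemma SymAt.inj {τ : V → V} {x : V} (h : SymAt τ x) {a : V} (ha : fderiv ℝ τ x a = 0) :
    a = 0 := by
  apply om_nondeg
  intro b
  rw [← h a b, ha]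
  simp [om]

variable {G : ℂ → ℂ}

def E0 (h : Parts G) (i : Idx) : OpenPartialHomeomorph M V := Classical.choose (h.homeo i)

lemma E0_spec (h : Parts G) (i : Idx) : (E0 h i).source = ch i '' dom i ∧
    (E0 h i).target = dom i ∧ (∀ x ∈ dom i, (E0 h i) (ch i x) = x) ∧
    (∀ x ∈ dom i, (E0 h i).symm x = ch i x) := Classical.choose_spec (h.homeo i)

/-- the charts of the atlas -/
def EE (h : Parts G) (i : Idx) : OpenPartialHomeomorph M (Std 3) :=
  (E0 h i).trans TV.toHomeomorph.toOpenPartialHomeomorph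

lemma EE_source (h : Parts G) (i : Idx) : (EE h i).source = ch i '' dom i := by
  have := (E0_spec h i).1
  simp [EE, this]

lemma EE_apply (h : Parts G) (i : Idx) {x : V} (hx : x ∈ dom i) : EE h i (ch i x) = TV x := by
  have := (E0_spec h i).2.2.1 x hx
  simp [EE, this]

lemma EE_symm (h : Parts G) (i : Idx) {x : V} (hx : x ∈ dom i) :
    (EE h i).symm (TV x) = ch i x := by
  have := (E0_spec h i).2.2.2 x hx
  simp [EE, this]

lemma EE_target (h : Parts G) (i : Idx) {X : Std 3} :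
    X ∈ (EE h i).target ↔ TV.symm X ∈ dom i := by
  have := (E0_spec h i).2.1
  simp [EE, this]

lemma eval_E (h : Parts G) {E' : Type} [NormedAddCommGroup E'] [NormedSpace ℝ E']
    (j : Idx) (F : E' → M) (x : E') (i : Idx) (σ : E' → V) (hσ : σ x ∈ dom i)
    (hc : ContDiffAt ℝ ∞ σ x) (hF : ∀ᶠ y in 𝓝 x, F y = ch i (σ y))
    (hj : F x ∈ (EE h j).source) :
    ∃ τ : V → V, ContDiffAt ℝ ∞ τ (σ x) ∧ SymAt τ (σ x) ∧
      (fun y => EE h j (F y)) =ᶠ[𝓝 x] fun y => TV (τ (σ y)) := by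
  rw [EE_source] at hj
  obtain ⟨y0, hy0, hy1⟩ := hj
  rw [hF.self_of_nhds] at hy1
  obtain ⟨τ, hτ, hev⟩ := h.trans i j (σ x) y0 hσ hy0 hy1.symm
  refine ⟨τ, hev.self_of_nhds.1, hev.self_of_nhds.2.1, ?_⟩
  have hσc : ContinuousAt σ x := hc.continuousAt
  have hτc : ContinuousAt τ (σ x) := hev.self_of_nhds.1.continuousAt
  have h1 : ∀ᶠ y in 𝓝 x, τ (σ y) ∈ dom j := by
    have : ContinuousAt (fun y => τ (σ y)) x := ContinuousAt.comp (g := τ) hτc hσc
    apply this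
    show dom j ∈ 𝓝 (τ (σ x))
    rw [hτ]
    exact (h.dopen j).mem_nhds hy0
  have h2 : ∀ᶠ y in 𝓝 x, ch j (τ (σ y)) = ch i (σ y) :=
    hσc.eventually (hev.mono fun z hz => hz.2.2)
  filter_upwards [h1, h2, hF] with y a b c
  rw [c, ← b, EE_apply h j a]

lemma ch_cont (h : Parts G) (i : Idx) : ContinuousOn (ch i) (dom i) := by
  have h1 := (EE h i).symm.continuousOn
  have h2 : ContinuousOn (fun x : V => (EE h i).symm (TV x)) (dom i) := by
    apply h1.comp TV.continuous.continuousOn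
    intro x hx
    simp only [OpenPartialHomeomorph.symm_source]
    rw [EE_target]
    simpa using hx
  exact h2.congr fun x hx => (EE_symm h i hx).symm

theorem isAtlas (h : Parts G) : IsSymplecticAtlas 3 (Set.range (EE h)) := by
  have key : ∀ i j : Idx, ∀ X ∈ ((EE h i).symm.trans (EE h j)).source,
      ∃ τ : V → V, ContDiffAt ℝ ∞ τ (TV.symm X) ∧ SymAt τ (TV.symm X) ∧
        (⇑((EE h i).symm.trans (EE h j))) =ᶠ[𝓝 X] fun y => TV (τ (TV.symm y)) := by
    intro i j X hX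
    rw [OpenPartialHomeomorph.trans_source] at hX
    have hX1 : TV.symm X ∈ dom i := by
      have := hX.1
      rw [OpenPartialHomeomorph.symm_source, EE_target] at this
      exact this
    have hF : ∀ᶠ y in 𝓝 X, (EE h i).symm y = ch i (TV.symm y) := by
      have : ∀ᶠ y in 𝓝 X, TV.symm y ∈ dom i :=
        TV.symm.continuous.continuousAt.eventually ((h.dopen i).mem_nhds hX1)
      filter_upwards [this] with y hy
      rw [← EE_symm h i hy]
      simp
    obtain ⟨τ, h1, h2, h3⟩ := eval_E h j (fun y => (EE h i).symm y) X i (fun y => TV.symm y) hX1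
      TV.symm.contDiff.contDiffAt hF hX.2
    exact ⟨τ, h1, h2, h3⟩
  refine ⟨?_, ?_, ?_⟩
  · intro x
    obtain ⟨i, Q, hQ, rfl⟩ := h.cover x
    exact ⟨EE h i, ⟨i, rfl⟩, by rw [EE_source]; exact ⟨Q, hQ, rfl⟩⟩
  · rintro _ ⟨i, rfl⟩ _ ⟨j, rfl⟩ X hX
    obtain ⟨τ, h1, h2, h3⟩ := key i j X hX
    have : ContDiffAt ℝ ∞ (fun y => TV (τ (TV.symm y))) X :=
      TV.contDiff.contDiffAt.comp X
        (ContDiffAt.comp (g := τ) X h1 TV.symm.contDiff.contDiffAt)
    exact (this.congr_of_eventuallyEq h3).contDiffWithinAt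
  · rintro _ ⟨i, rfl⟩ _ ⟨j, rfl⟩ X hX a b
    obtain ⟨τ, h1, h2, h3⟩ := key i j X hX
    rw [h3.fderiv_eq]
    have hd : HasFDerivAt (fun y => TV (τ (TV.symm y)))
        ((TV : V →L[ℝ] Std 3).comp ((fderiv ℝ τ (TV.symm X)).comp
          (TV.symm : Std 3 →L[ℝ] V))) X := by
      have e1 : HasFDerivAt τ (fderiv ℝ τ (TV.symm X)) (TV.symm X) :=
        (h1.differentiableAt (by simp)).hasFDerivAt
      have e2 : HasFDerivAt (fun y => TV.symm y) (TV.symm : Std 3 →L[ℝ] V) X :=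
        TV.symm.hasFDerivAt
      have e3 := e1.comp X e2
      exact (TV.hasFDerivAt (x := τ (TV.symm X))).comp X e3
    rw [hd.fderiv]
    simp only [ContinuousLinearMap.comp_apply, ContinuousLinearEquiv.coe_coe]
    rw [TV_form, h2, ← TV_form]
    simp

theorem isLag (h : Parts G) (N : ℕ) : IsLagrangianSphere 3 (Set.range (EE h))
    ((fun v : EuclideanSpace ℝ (Fin 4) => phi G N (C4 v)) '' Metric.sphere 0 1) := by
  have hne : ∀ v : EuclideanSpace ℝ (Fin 4), v ≠ 0 → C4 v ≠ 0 := fun v hv => by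
    simpa using hv
  refine ⟨fun v => phi G N (C4 v), rfl, ?_, ?_, ?_, ?_⟩
  · intro v hv w hw hvw
    have h1 : ‖(C4 v).1‖ ^ 2 + ‖(C4 v).2‖ ^ 2 = 1 := by
      rw [C4_norm]; simp at hv; simp [hv]
    have h2 : ‖(C4 w).1‖ ^ 2 + ‖(C4 w).2‖ ^ 2 = 1 := by
      rw [C4_norm]; simp at hw; simp [hw]
    exact C4.injective (h.inj N _ _ h1 h2 hvw)
  · intro v r hr
    show phi G N (C4 (r • v)) = _
    rw [map_smul, h.ray N _ _ hr]
  · intro v hv
    obtain ⟨i, σ, h1, h2, h3, h4, h5⟩ := h.imm N (C4 v) (hne v hv)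
    apply ContinuousAt.continuousWithinAt
    have hc : ContinuousAt (fun w => σ (C4 w)) v :=
      ContinuousAt.comp (g := σ) h2.self_of_nhds.continuousAt C4.continuous.continuousAt
    have hch : ContinuousAt (ch i) (σ (C4 v)) :=
      (ch_cont h i).continuousAt ((h.dopen i).mem_nhds h1)
    have : ContinuousAt (fun w => ch i (σ (C4 w))) v := ContinuousAt.comp (g := ch i) hch hc
    refine this.congr ?_
    have := (C4.continuous.continuousAt (x := v)).eventually h3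
    filter_upwards [this] with w hw
    exact hw.symm
  · rintro v hv _ ⟨j, rfl⟩ hvj
    obtain ⟨i, σ, h1, h2, h3, h4, h5⟩ := h.imm N (C4 v) (hne v hv)
    have hs : ContDiffAt ℝ ∞ (fun w => σ (C4 w)) v :=
      ContDiffAt.comp (g := σ) v h2.self_of_nhds C4.contDiff.contDiffAt
    have hF : ∀ᶠ w in 𝓝 v, phi G N (C4 w) = ch i (σ (C4 w)) :=
      (C4.continuous.continuousAt (x := v)).eventually h3
    obtain ⟨τ, t1, t2, t3⟩ := eval_E h j (fun w => phi G N (C4 w)) v i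
      (fun w => σ (C4 w)) h1 hs hF hvj
    have hd : HasFDerivAt (fun w => TV (τ (σ (C4 w))))
        ((TV : V →L[ℝ] Std 3).comp ((fderiv ℝ τ (σ (C4 v))).comp
          ((fderiv ℝ σ (C4 v)).comp (C4 : EuclideanSpace ℝ (Fin 4) →L[ℝ] ℂ × ℂ)))) v := by
      have e1 : HasFDerivAt τ (fderiv ℝ τ (σ (C4 v))) (σ (C4 v)) :=
        (t1.differentiableAt (by simp)).hasFDerivAt
      have e2 : HasFDerivAt σ (fderiv ℝ σ (C4 v)) (C4 v) :=
        (h2.self_of_nhds.differentiableAt (by simp)).hasFDerivAt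
      have e3 : HasFDerivAt (fun w => C4 w)
          (C4 : EuclideanSpace ℝ (Fin 4) →L[ℝ] ℂ × ℂ) v := C4.hasFDerivAt
      have e4 := e1.comp v (e2.comp v e3)
      exact (TV.hasFDerivAt (x := τ (σ (C4 v)))).comp v e4
    refine ⟨?_, ?_, ?_⟩
    · refine ContDiffAt.congr_of_eventuallyEq ?_ t3
      exact TV.contDiff.contDiffAt.comp v (ContDiffAt.comp (g := τ) v t1 hs)
    · intro w hw
      rw [t3.fderiv_eq, hd.fderiv] at hw
      simp only [ContinuousLinearMap.comp_apply, ContinuousLinearEquiv.coe_coe] at hw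
      have hw1 : fderiv ℝ τ (σ (C4 v)) (fderiv ℝ σ (C4 v) (C4 w)) = 0 := by
        simpa using hw
      have hw2 := t2.inj hw1
      obtain ⟨r, hr⟩ := h5 _ hw2
      refine ⟨r, C4.injective ?_⟩
      rw [hr, map_smul]
    · intro a b
      rw [t3.fderiv_eq, hd.fderiv]
      simp only [ContinuousLinearMap.comp_apply, ContinuousLinearEquiv.coe_coe]
      rw [TV_form, t2, h4]

theorem goal_of_parts (h : Parts G) : Goal := by
  refine ⟨M, inferInstance, Set.range (EE h),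
    fun N => (fun v : EuclideanSpace ℝ (Fin 4) => phi G N (C4 v)) '' Metric.sphere 0 1,
    h.comp, h.t2, isAtlas h, isLag h, ?_⟩
  intro j k hjk
  rw [Set.disjoint_left]
  rintro _ ⟨v, hv, rfl⟩ ⟨w, hw, hvw⟩
  exact hjk (h.level _ _ _ _ hvw).symm

end

end Pool.Agent.W8.LS
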