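import Mathlib

/-!
Project LS (helper8, MP_89d91e_gt): a closed symplectic 6-manifold with infinitely many pairwise
disjoint Lagrangian 3-spheres.  Definitions.

`V = R x R x C x C` with coordinates (t, c, z, w) and the constant form
`om = dt ^ dc + Re (dz ^ dw)`.  `rel` is the orbit relation of a discrete group of affine
symplectic maps `act` (e = 1 or -1), `site` are affine symplectic maps carrying the standard
surface z = w = 0 to the fixed surfaces of the group, `sing` is the union of these surfaces.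
`M` is the quotient, each point of `sing` being replaced by the complex directions
`[z : w]` (`some v` is the direction (1, v), `none` is the direction (0, 1)).
-/

open scoped Topology ContDiff
open Complex (I)

namespace Pool.Agent.W8.LS

noncomputable section

abbrev V : Type := ℝ × ℝ × ℂ × ℂ

/-- the constant symplectic form `dt ∧ dc + Re (dz ∧ dw)` -/
def om (p q : V) : ℝ :=
  (p.1 * q.2.1 - p.2.1 * q.1) + (p.2.2.1 * q.2.2.2 - p.2.2.2 * q.2.2.1).re

/-- the derivative of `f` at `x` preserves `om` -/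
def SymAt (f : V → V) (x : V) : Prop :=
  ∀ a b : V, om (fderiv ℝ f x a) (fderiv ℝ f x b) = om a b

/-- the group elements, `e` is `1` or `-1` -/
def act (e k l a n m r : ℤ) (P : V) : V :=
  (P.1 - 2 * k * P.2.2.1.im + a, P.2.1 + n, (e : ℂ) * (P.2.2.1 + k + l * I),
    (e : ℂ) * (P.2.2.2 + m - ((2 * k * P.2.1 + √2 * m + 2 * r : ℝ) : ℂ) * I))

/-- the orbit relation -/
def rel (P Q : V) : Prop :=
  ∃ e k l a n m r : ℤ, (e = 1 ∨ e = -1) ∧ Q = act e k l a n m r P

/-- affine symplectic maps carrying `z = w = 0` to the fixed surfaces -/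
def site (k l m r : ℤ) (Q : V) : V :=
  (Q.1 + k * Q.2.2.1.im, Q.2.1, Q.2.2.1 - ((k : ℂ) + l * I) / 2,
    Q.2.2.2 - (m : ℂ) / 2 + (((k : ℝ) * Q.2.1 + (√2 * m + 2 * r) / 2 : ℝ) : ℂ) * I)

/-- the inverse of `site` -/
def siteInv (k l m r : ℤ) (P : V) : V :=
  (P.1 - k * (P.2.2.1.im + l / 2), P.2.1, P.2.2.1 + ((k : ℂ) + l * I) / 2,
    P.2.2.2 + (m : ℂ) / 2 - (((k : ℝ) * P.2.1 + (√2 * m + 2 * r) / 2 : ℝ) : ℂ) * I)

/-- the union of the fixed surfaces -/
def sing (P : V) : Prop :=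
  ∃ k l m r : ℤ, ∃ s c : ℝ, P = site k l m r (s, c, 0, 0)

/-- identification of points with directions -/
def R (q q' : V × Option ℂ) : Prop := rel q.1 q'.1 ∧ (sing q.1 → q.2 = q'.2)

/-- the underlying set of the manifold -/
def M : Type := Quot R

def pt (P : V) (d : Option ℂ) : M := Quot.mk R (P, d)

/-- a square root of `2 u` -/
def sq (u : ℂ) : ℂ := (2 * u) ^ (1 / 2 : ℂ)

/-- parametrisation of the regular part -/
def chR (P : V) : M := pt P (some 0)

/-- coordinates `(s, c, u, v)`, `u = z^2/2`, `v = w/z` -/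
def chA (k l m r : ℤ) (Q : V) : M :=
  pt (site k l m r (Q.1, Q.2.1, sq Q.2.2.1, Q.2.2.2 * sq Q.2.2.1)) (some Q.2.2.2)

/-- coordinates `(s, c, v', u')`, `v' = z/w`, `u' = w^2/2` -/
def chB (k l m r : ℤ) (Q : V) : M :=
  pt (site k l m r (Q.1, Q.2.1, Q.2.2.1 * sq Q.2.2.2, sq Q.2.2.2))
    (if Q.2.2.1 = 0 then none else some (Q.2.2.1)⁻¹)

def UA (s c : ℝ) : Set V :=
  {Q | |Q.1 - s| < 1 / 4 ∧ |Q.2.1 - c| < 1 / 4 ∧ ‖Q.2.2.1‖ * (1 + ‖Q.2.2.2‖ ^ 2) < 1 / 200}

def UB (s c : ℝ) : Set V :=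
  {Q | |Q.1 - s| < 1 / 4 ∧ |Q.2.1 - c| < 1 / 4 ∧ ‖Q.2.2.2‖ * (1 + ‖Q.2.2.1‖ ^ 2) < 1 / 200}

/-- open sets of regular points on which the quotient map is injective -/
def GoodOpen (O : Set V) : Prop :=
  IsOpen O ∧ (∀ P ∈ O, ¬ sing P) ∧ (∀ P ∈ O, ∀ Q ∈ O, rel P Q → P = Q)

/-- index set of the parametrisations -/
inductive Idx : Type
  | reg (O : Set V) (h : GoodOpen O)
  | A (k l m r : ℤ) (s c : ℝ)
  | B (k l m r : ℤ) (s c : ℝ)

def dom : Idx → Set V
  | Idx.reg O _ => O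
  | Idx.A _ _ _ _ s c => UA s c
  | Idx.B _ _ _ _ s c => UB s c

def ch : Idx → V → M
  | Idx.reg _ _ => chR
  | Idx.A k l m r _ _ => chA k l m r
  | Idx.B k l m r _ _ => chB k l m r

/-- the finest topology for which all parametrisations are continuous -/
@[reducible] def glueTop {X Y I : Type} [TopologicalSpace Y] (U : I → Set Y) (f : I → Y → X) :
    TopologicalSpace X :=
  ⨆ i, TopologicalSpace.coinduced (fun x : U i => f i x) inferInstance

instance : TopologicalSpace M := glueTop dom ch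

/-- local transition from the parametrisation `f` at `x` to `g` at `y` -/
def LT (f g : V → M) (x y : V) : Prop :=
  ∃ τ : V → V, τ x = y ∧
    ∀ᶠ z in 𝓝 x, ContDiffAt ℝ ∞ τ z ∧ SymAt τ z ∧ g (τ z) = f z

/-! ### the spheres -/

/-- odd smooth function, `0` on `[-1/8, 1/8]`, `1/2` for `x ≥ 3/8` -/
def hf (x : ℝ) : ℝ :=
  (Real.smoothTransition (4 * x - 1 / 2) - Real.smoothTransition (-4 * x - 1 / 2)) / 2

/-- the Lagrangian sheet number `N` -/
def sheet (N : ℕ) (s : ℝ) (z : ℂ) : V :=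
  (s, -(N : ℝ) / √2, z, (((N : ℝ) * hf z.re : ℝ) : ℂ))

/-- a solution `z` of `cosh (2 π z) = w` -/
def arcc (w : ℂ) : ℂ :=
  Classical.epsilon (fun z : ℂ => Complex.cosh (2 * (Real.pi : ℂ) * z) = w)

def lam (k l m r : ℤ) (N : ℕ) (s : ℝ) (w : ℂ) : M :=
  pt (site k l m r (sheet N s (arcc w))) (some 0)

def kap : ℝ := Real.exp (Real.pi / 2)

/-- the sphere number `N`, as a map from `C^2 \ 0` constant on rays; `G` as in `GFun` -/
def phi (G : ℂ → ℂ) (N : ℕ) (p : ℂ × ℂ) : M :=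
  if ‖p.2‖ ≤ ‖p.1‖ then
    lam 0 0 0 0 N (Complex.arg p.1 / (2 * Real.pi)) (G (kap * (p.2 / p.1)))
  else
    lam (-1) 0 (-(N : ℤ)) 0 N (Complex.arg p.2 / (2 * Real.pi)) (G (kap * (p.1 / p.2)))

/-- `F` is near `x` given by a smooth isotropic map in one of the parametrisations, and the
kernel of its derivative at `x` is contained in `K` -/
def LagPt {E : Type} [NormedAddCommGroup E] [NormedSpace ℝ E] (F : E → M) (x : E)
    (K : Set E) : Prop :=
  ∃ (i : Idx) (σ : E → V), σ x ∈ dom i ∧ (∀ᶠ y in 𝓝 x, ContDiffAt ℝ ∞ σ y) ∧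
    (∀ᶠ y in 𝓝 x, F y = ch i (σ y)) ∧
    (∀ a b, om (fderiv ℝ σ x a) (fderiv ℝ σ x b) = 0) ∧
    (∀ a, fderiv ℝ σ x a = 0 → a ∈ K)

end

end Pool.Agent.W8.LS
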