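import Pool.Agent.W8.LS.Stm

/-!
Project LS: definitions used in the final statement, and the final statement from the parts.
-/

open scoped Topology ContDiff
open Complex (I)

namespace Pool.Agent.W8.LS

noncomputable section

/-- `R^{2n}`, as pairs `(x, y)` of vectors of `R^n` -/
abbrev Std (n : ℕ) : Type := EuclideanSpace ℝ (Fin n) × EuclideanSpace ℝ (Fin n)

/-- the standard symplectic form `dx_1 ∧ dy_1 + ... + dx_n ∧ dy_n` -/
def stdForm (n : ℕ) (a b : Std n) : ℝ := ∑ i, (a.1 i * b.2 i - a.2 i * b.1 i)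

/-- `A` is an atlas of Darboux charts: charts with values in `R^{2n}` whose coordinate changes
are smooth and preserve the standard symplectic form. -/
structure IsSymplecticAtlas (n : ℕ) {X : Type} [TopologicalSpace X]
    (A : Set (OpenPartialHomeomorph X (Std n))) : Prop where
  cover : ∀ x : X, ∃ e ∈ A, x ∈ e.source
  smooth : ∀ e ∈ A, ∀ e' ∈ A, ContDiffOn ℝ ∞ (e.symm.trans e') (e.symm.trans e').source
  symplectic : ∀ e ∈ A, ∀ e' ∈ A, ∀ x ∈ (e.symm.trans e').source, ∀ a b : Std n,
    stdForm n (fderiv ℝ (e.symm.trans e') x a) (fderiv ℝ (e.symm.trans e') x b) = stdForm n a b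

/-- `S` is a Lagrangian sphere: the image of the unit sphere `S^n` of `R^{n+1}` under an
injective smooth immersion `φ` whose tangent spaces are isotropic.  The map is extended to
`R^{n+1} \ 0` by being constant on the open rays, so that in each chart `e` of the atlas the
derivative of `e ∘ φ` at `v` has kernel exactly the line `R v`. -/
def IsLagrangianSphere (n : ℕ) {X : Type} [TopologicalSpace X]
    (A : Set (OpenPartialHomeomorph X (Std n))) (S : Set X) : Prop :=
  ∃ φ : EuclideanSpace ℝ (Fin (n + 1)) → X,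
    φ '' Metric.sphere 0 1 = S ∧ Set.InjOn φ (Metric.sphere 0 1) ∧
    (∀ v : EuclideanSpace ℝ (Fin (n + 1)), ∀ r : ℝ, 0 < r → φ (r • v) = φ v) ∧
    ContinuousOn φ {v | v ≠ 0} ∧
    ∀ v : EuclideanSpace ℝ (Fin (n + 1)), v ≠ 0 → ∀ e ∈ A, φ v ∈ e.source →
      ContDiffAt ℝ ∞ (fun w => e (φ w)) v ∧
      (∀ w, fderiv ℝ (fun w => e (φ w)) v w = 0 → ∃ r : ℝ, w = r • v) ∧
      ∀ a b, stdForm n (fderiv ℝ (fun w => e (φ w)) v a)
        (fderiv ℝ (fun w => e (φ w)) v b) = 0

/-- the final statement -/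
def Goal : Prop :=
  ∃ (X : Type) (_ : TopologicalSpace X) (A : Set (OpenPartialHomeomorph X (Std 3)))
    (L : ℕ → Set X), CompactSpace X ∧ T2Space X ∧ IsSymplecticAtlas 3 A ∧
    (∀ k, IsLagrangianSphere 3 A (L k)) ∧ ∀ j k, j ≠ k → Disjoint (L j) (L k)

/-- linear symplectic identification of `V` with `R^6` -/
def TV : V ≃L[ℝ] Std 3 :=
  LinearEquiv.toContinuousLinearEquiv
    { toFun := fun p => (WithLp.toLp 2 ![p.1, p.2.2.1.re, p.2.2.1.im],
        WithLp.toLp 2 ![p.2.1, p.2.2.2.re, -p.2.2.2.im])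
      invFun := fun q => (q.1 0, q.2 0, ⟨q.1 1, q.1 2⟩, ⟨q.2 1, -q.2 2⟩)
      map_add' := by
        intro p q
        ext i <;> fin_cases i <;> simp <;> try ring
      map_smul' := by
        intro c p
        ext i <;> fin_cases i <;> simp
      left_inv := by
        intro p
        ext <;> simp
      right_inv := by
        intro q
        ext i <;> fin_cases i <;> simp }

lemma TV_form (a b : V) : stdForm 3 (TV a) (TV b) = om a b := by
  simp only [stdForm, Fin.sum_univ_three, om]
  show _ = _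
  simp [TV, LinearEquiv.coe_toContinuousLinearEquiv']
  ring

/-- `R^4 = C^2` -/
def C4 : EuclideanSpace ℝ (Fin 4) ≃L[ℝ] (ℂ × ℂ) :=
  LinearEquiv.toContinuousLinearEquiv
    { toFun := fun v => (⟨v 0, v 1⟩, ⟨v 2, v 3⟩)
      invFun := fun p => WithLp.toLp 2 ![p.1.re, p.1.im, p.2.re, p.2.im]
      map_add' := by
        intro p q
        apply Prod.ext <;> apply Complex.ext <;> simp
      map_smul' := by
        intro c p
        apply Prod.ext <;> apply Complex.ext <;> simp
      left_inv := by
        intro p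
        ext i; fin_cases i <;> simp
      right_inv := by
        intro q
        apply Prod.ext <;> apply Complex.ext <;> simp }

lemma C4_norm (v : EuclideanSpace ℝ (Fin 4)) : ‖(C4 v).1‖ ^ 2 + ‖(C4 v).2‖ ^ 2 = ‖v‖ ^ 2 := by
  rw [EuclideanSpace.norm_sq_eq, Fin.sum_univ_four, Complex.sq_norm, Complex.sq_norm]
  simp [C4, LinearEquiv.coe_toContinuousLinearEquiv', Complex.normSq_apply]
  ring

end

end Pool.Agent.W8.LS
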