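import Pool.Agent.W8.LS.Asm

/-!
Project LS: the final statement from the proofs of the subtasks.
-/

open scoped Topology ContDiff
open Complex (I)

namespace Pool.Agent.W8.LS

theorem goal_of_props (hRelEquiv : RelEquiv) (hActSite : ActSite) (hSingRel : SingRel)
    (hPtEq : PtEq) (hActSmooth : ActSmooth) (hSiteSmooth : SiteSmooth) (hFlip : Flip)
    (hRelClosed : RelClosed) (hSingClosed : SingClosed) (hLocInj : LocInj)
    (hNearSite : NearSite) (hNearSing : NearSing) (hSiteRel : SiteRel) (hSqBasic : SqBasic)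
    (hLTSymm : LTSymm) (hLTTrans : LTTrans) (hLTRR : LTRR) (hLTRA : LTRA) (hLTRB : LTRB)
    (hLTAA : LTAA) (hLTBB : LTBB) (hLTAB : LTAB) (hSingAB : SingAB) (hAllTrans : AllTrans)
    (hInjA : InjA) (hInjB : InjB) (hDomOpen : DomOpen) (hCover : Cover)
    (hGlueHomeo : GlueHomeo) (hGlueT2 : GlueT2) (hSeparate : Separate) (hChCont : ChCont)
    (hCompactCover : CompactCover) (hCompactM : CompactM) (hGRad : GRad)
    (hGabInj : GabInj) (hGabImm : GabImm) (hGabJou : GabJou) (hGabRe : GabRe)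
    (hHf : HfBasic) (hCosh : CoshBasic) (hCoshInv : CoshInv) (hCoshBranch : CoshBranch)
    (hLamEq : LamEq) (hLamReg : LamReg) (hLamBranch : LamBranch) (hLamImm : LamImm)
    (hLamInj : LamInj) (hLamSep : LamSep) (hLamLevel : LamLevel) (hLamShift : LamShift)
    (hNeck : Neck) (hKap : KapGt) (hPhiImm : PhiImm) (hPhiRay : PhiRay) (hPhiInj : PhiInj) :
    Goal := by
  have hS := hSingRel hActSite hRelEquiv
  have hF : Facts := ⟨hRelEquiv, hActSite, hS, hPtEq hRelEquiv hS, hActSmooth, hSiteSmooth,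
    hFlip, hSingClosed, hNearSite, hNearSing, hSiteRel, hSqBasic, hRelClosed, hLTSymm, hLTTrans⟩
  have hL := hLamEq hF hHf hCosh
  have hLF : LamFacts := ⟨hF, hHf, hCosh, hLocInj, hL⟩
  obtain ⟨α, β, hab⟩ := hGRad
  have hG : GProp (Gab α β) := ⟨(hGabImm α β hab).1, hGabInj α β hab, (hGabImm α β hab).2,
    hGabJou α β hab, (hGabRe hKap α β hab).1, (hGabRe hKap α β hab).2⟩
  have hLI := hLamImm hLF hCoshInv hCoshBranch hLamReg hLamBranch
  have hA := hInjA hF
  have hB := hInjB hF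
  have hinj : ∀ i, Set.InjOn (ch i) (dom i) := by
    intro i
    cases i with
    | reg O h =>
      intro P hP Q hQ hPQ
      have h1 := (hF.2.2.2.1 P Q (some 0) (some 0)).1 hPQ
      exact h.2.2 P hP Q hQ h1.1
    | A k l m r s c => exact hA s c k l m r
    | B k l m r s c => exact hB s c k l m r
  have htr := hAllTrans hF hLTRR hLTRA hLTRB hLTAA hLTBB hLTAB hSingAB hLocInj
  have htr' : ∀ (i j : Idx) (x y : V), x ∈ dom i → y ∈ dom j → ch i x = ch j y →
      ∃ τ : V → V, τ x = y ∧ ContinuousAt τ x ∧ ∀ᶠ z in 𝓝 x, ch j (τ z) = ch i z := by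
    intro i j x y hx hy hxy
    obtain ⟨τ, h1, h2⟩ := htr i j x y hx hy hxy
    exact ⟨τ, h1, h2.self_of_nhds.1.continuousAt, h2.mono fun z hz => hz.2.2⟩
  have hP : Parts (Gab α β) :=
    { dopen := hDomOpen
      cover := hCover hF hLocInj
      trans := htr
      homeo := hGlueHomeo M V Idx dom ch hDomOpen hinj htr' ⟨0⟩
      t2 := hGlueT2 M V Idx dom ch hDomOpen hinj htr'
        (hSeparate hF hLocInj hInjA hInjB hSingAB)
      comp := hCompactM hChCont hCompactCover hF hLocInj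
      imm := hPhiImm hLF hKap hLamShift hNeck (Gab α β) hG hLI
      ray := hPhiRay hLF (Gab α β)
      inj := hPhiInj hLF hLamInj hLamSep hLamShift hNeck hKap (Gab α β) hG
      level := by
        intro N N' p q h
        unfold phi at h
        split_ifs at h
        · exact hLamLevel hLF _ _ _ _ _ _ _ _ _ _ _ _ _ _ h
        · exact hLamLevel hLF _ _ _ _ _ _ _ _ _ _ _ _ _ _ h
        · exact hLamLevel hLF _ _ _ _ _ _ _ _ _ _ _ _ _ _ h
        · exact hLamLevel hLF _ _ _ _ _ _ _ _ _ _ _ _ _ _ h }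
  exact goal_of_parts hP

end Pool.Agent.W8.LS
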